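import Mathlib

set_option autoImplicit false

open Polynomial

namespace Pool.Agent.Results.MP_177738_an.DisconnectedBounded

/-- The Pareto solution set of the vector variational inequality given by
`F 0, ..., F (m-1)` on `K`: the points `x` of `K` such that for no `y` in `K` the vector
`(⟪F l x, x - y⟫)_l` lies in the nonnegative orthant minus the origin. -/
def ParetoSol {n m : ℕ} (F : Fin m → EuclideanSpace ℝ (Fin n) → EuclideanSpace ℝ (Fin n))
    (K : Set (EuclideanSpace ℝ (Fin n))) : Set (EuclideanSpace ℝ (Fin n)) :=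
  {x | x ∈ K ∧ ∀ y ∈ K, (fun l => inner ℝ (F l x) (x - y)) ∉
    {v : Fin m → ℝ | 0 ≤ v} \ {0}}

/-- The first operator. -/
noncomputable def F1 (x : EuclideanSpace ℝ (Fin 3)) : EuclideanSpace ℝ (Fin 3) :=
  !₂[-x 1, x 0, 0]

/-- The second operator. -/
noncomputable def F2 (x : EuclideanSpace ℝ (Fin 3)) : EuclideanSpace ℝ (Fin 3) :=
  !₂[x 2, 0, -1 - x 0]

/-- The linear part of the first operator (equal to it). -/
noncomputable def F1lin : EuclideanSpace ℝ (Fin 3) →ₗ[ℝ] EuclideanSpace ℝ (Fin 3) where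
  toFun := F1
  map_add' x y := by ext i; fin_cases i <;> simp [F1]; ring
  map_smul' c x := by ext i; fin_cases i <;> simp [F1]

/-- The linear part of the second operator. -/
noncomputable def F2lin : EuclideanSpace ℝ (Fin 3) →ₗ[ℝ] EuclideanSpace ℝ (Fin 3) where
  toFun x := !₂[x 2, 0, -x 0]
  map_add' x y := by ext i; fin_cases i <;> simp; ring
  map_smul' c x := by ext i; fin_cases i <;> simp

/-- The constraint set. -/
def KK : Set (EuclideanSpace ℝ (Fin 3)) :=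
  {x | 0 ≤ x 0 ∧ x 0 ≤ 1 ∧ 0 ≤ x 2 ∧ x 2 ≤ 1 / 2 ∧ expNegInvGlue (x 2) ≤ x 1 ∧ x 1 ≤ 1}

lemma inner3 (a b : EuclideanSpace ℝ (Fin 3)) :
    inner ℝ a b = a 0 * b 0 + a 1 * b 1 + a 2 * b 2 := by
  simp [PiLp.inner_apply, Fin.sum_univ_three, mul_comm]

lemma psi_hasDerivAt (x : ℝ) :
    HasDerivAt expNegInvGlue ((x⁻¹) ^ 2 * expNegInvGlue x) x := by
  have := expNegInvGlue.hasDerivAt_polynomial_eval_inv_mul 1 x
  simpa using this

lemma psi_hasDerivAt2 (x : ℝ) :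
    HasDerivAt (fun x => (x⁻¹) ^ 2 * expNegInvGlue x)
      ((x⁻¹) ^ 2 * ((x⁻¹) ^ 2 - 2 * x⁻¹) * expNegInvGlue x) x := by
  have := expNegInvGlue.hasDerivAt_polynomial_eval_inv_mul (X ^ 2) x
  have e1 : (fun x : ℝ => (X ^ 2 : ℝ[X]).eval x⁻¹ * expNegInvGlue x) =
      fun x => (x⁻¹) ^ 2 * expNegInvGlue x := by
    ext y; simp
  have e2 : (X ^ 2 * (X ^ 2 - derivative (R := ℝ) (X ^ 2))).eval x⁻¹ =
      (x⁻¹) ^ 2 * ((x⁻¹) ^ 2 - 2 * x⁻¹) := by
    simp only [eval_mul, eval_pow, eval_X, eval_sub, derivative_X_pow, Nat.cast_ofNat,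
      Nat.add_one_sub_one, pow_one, eval_C]
  rw [e1, e2] at this
  exact this

lemma psi_convexOn : ConvexOn ℝ (Set.Icc 0 (1 / 2)) expNegInvGlue := by
  have hd : deriv expNegInvGlue = fun x => (x⁻¹) ^ 2 * expNegInvGlue x :=
    funext fun x => (psi_hasDerivAt x).deriv
  apply convexOn_of_deriv2_nonneg' (convex_Icc _ _)
  · exact fun x _ => (psi_hasDerivAt x).differentiableAt.differentiableWithinAt
  · intro x _
    rw [hd]
    exact (psi_hasDerivAt2 x).differentiableAt.differentiableWithinAt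
  · intro x hx
    simp only [Function.iterate_succ, Function.iterate_zero, Function.comp_def, id]
    rw [hd, (psi_hasDerivAt2 x).deriv]
    rcases eq_or_lt_of_le hx.1 with h | h
    · rw [← h]; simp
    · have h2 : 2 ≤ x⁻¹ := by
        rw [le_inv_comm₀ (by norm_num) h]
        linarith [hx.2]
      have h3 := expNegInvGlue.nonneg x
      have h4 : 0 ≤ (x⁻¹) ^ 2 - 2 * x⁻¹ := by nlinarith
      positivity

lemma psi_le_one (s : ℝ) : expNegInvGlue s ≤ 1 := by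
  unfold expNegInvGlue
  split_ifs with h
  · norm_num
  · rw [Real.exp_le_one_iff]
    have := inv_pos.mpr (not_le.mp h)
    linarith

lemma KK_closed : IsClosed KK := by
  have h0 : Continuous fun x : EuclideanSpace ℝ (Fin 3) => x 0 := by fun_prop
  have h1 : Continuous fun x : EuclideanSpace ℝ (Fin 3) => x 1 := by fun_prop
  have h2 : Continuous fun x : EuclideanSpace ℝ (Fin 3) => x 2 := by fun_prop
  have hψ : Continuous expNegInvGlue := (expNegInvGlue.contDiff (n := 0)).continuous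
  have : KK = {x | 0 ≤ x 0} ∩ {x | x 0 ≤ 1} ∩ {x | 0 ≤ x 2} ∩ {x | x 2 ≤ 1 / 2} ∩
      {x | expNegInvGlue (x 2) ≤ x 1} ∩ {x | x 1 ≤ 1} := by
    ext x; simp only [KK, Set.mem_ofPred_eq, Set.mem_inter_iff]; tauto
  rw [this]
  exact (((((isClosed_le continuous_const h0).inter (isClosed_le h0 continuous_const)).inter
    (isClosed_le continuous_const h2)).inter (isClosed_le h2 continuous_const)).inter
    (isClosed_le (hψ.comp h2) h1)).inter (isClosed_le h1 continuous_const)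

lemma KK_bounded : Bornology.IsBounded KK := by
  rw [isBounded_iff_forall_norm_le]
  refine ⟨2, fun x hx => ?_⟩
  obtain ⟨h1, h2, h3, h4, h5, h6⟩ := hx
  have h7 : 0 ≤ x 1 := (expNegInvGlue.nonneg _).trans h5
  rw [EuclideanSpace.norm_eq, Real.sqrt_le_left (by norm_num)]
  simp only [Fin.sum_univ_three, Real.norm_eq_abs, sq_abs]
  nlinarith

lemma KK_compact : IsCompact KK :=
  Metric.isCompact_of_isClosed_isBounded KK_closed KK_bounded

lemma KK_convex : Convex ℝ KK := by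
  intro x hx y hy a b ha hb hab
  obtain ⟨h1, h2, h3, h4, h5, h6⟩ := hx
  obtain ⟨g1, g2, g3, g4, g5, g6⟩ := hy
  have e : ∀ i, (a • x + b • y) i = a * x i + b * y i := fun i => by simp
  simp only [KK, Set.mem_ofPred_eq, e]
  have hc := psi_convexOn.2 ⟨h3, h4⟩ ⟨g3, g4⟩ ha hb hab
  simp only [smul_eq_mul] at hc
  refine ⟨by positivity, ?_, by positivity, ?_, ?_, ?_⟩
  · calc a * x 0 + b * y 0 ≤ a * 1 + b * 1 := by gcongr
      _ = 1 := by linarith
  · calc a * x 2 + b * y 2 ≤ a * (1 / 2) + b * (1 / 2) := by gcongr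
      _ = 1 / 2 := by rw [← add_mul, hab, one_mul]
  · calc _ ≤ _ := hc
      _ ≤ a * x 1 + b * y 1 := by gcongr
  · calc a * x 1 + b * y 1 ≤ a * 1 + b * 1 := by gcongr
      _ = 1 := by linarith

/-- membership in the Pareto set, in coordinates -/
lemma mem_sol_iff (x : EuclideanSpace ℝ (Fin 3)) :
    x ∈ ParetoSol ![F1, F2] KK ↔ x ∈ KK ∧ ∀ y ∈ KK,
      ¬ (0 ≤ -x 1 * (x 0 - y 0) + x 0 * (x 1 - y 1) ∧
        0 ≤ x 2 * (x 0 - y 0) + (-1 - x 0) * (x 2 - y 2) ∧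
        (0 < -x 1 * (x 0 - y 0) + x 0 * (x 1 - y 1) ∨
        0 < x 2 * (x 0 - y 0) + (-1 - x 0) * (x 2 - y 2))) := by
  unfold ParetoSol
  simp only [Set.mem_ofPred_eq, Set.mem_sdiff, Set.mem_singleton_iff]
  refine and_congr_right fun _ => forall_congr' fun y => imp_congr_right fun _ => ?_
  rw [not_iff_not]
  have e0 : inner ℝ (![F1, F2] 0 x) (x - y) = -x 1 * (x 0 - y 0) + x 0 * (x 1 - y 1) := by
    simp [inner3, F1]
  have e1 : inner ℝ (![F1, F2] 1 x) (x - y) =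
      x 2 * (x 0 - y 0) + (-1 - x 0) * (x 2 - y 2) := by
    simp [inner3, F2]
  set A := -x 1 * (x 0 - y 0) + x 0 * (x 1 - y 1)
  set B := x 2 * (x 0 - y 0) + (-1 - x 0) * (x 2 - y 2)
  have e2 : (fun l => inner ℝ (![F1, F2] l x) (x - y)) = ![A, B] := by
    ext l; fin_cases l
    · exact e0
    · exact e1
  rw [e2]
  constructor
  · rintro ⟨h, h'⟩
    have hA : 0 ≤ A := h 0
    have hB : 0 ≤ B := h 1
    refine ⟨hA, hB, ?_⟩
    by_contra hc
    push Not at hc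
    apply h'
    ext l; fin_cases l
    · exact le_antisymm hc.1 hA
    · exact le_antisymm hc.2 hB
  · rintro ⟨hA, hB, h⟩
    refine ⟨?_, ?_⟩
    · intro l; fin_cases l
      · exact hA
      · exact hB
    · intro h0
      have hA0 : A = 0 := congrFun h0 0
      have hB0 : B = 0 := congrFun h0 1
      rcases h with h | h <;> linarith

lemma mem_KK_mk {t y s : ℝ} (h1 : 0 ≤ t) (h2 : t ≤ 1) (h3 : 0 ≤ s) (h4 : s ≤ 1 / 2)
    (h5 : expNegInvGlue s ≤ y) (h6 : y ≤ 1) : !₂[t, y, s] ∈ KK :=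
  ⟨h1, h2, h3, h4, h5, h6⟩

/-- Super-flatness of `exp (-1/s)`. -/
lemma psi_flat {s t : ℝ} (hs : 0 < s) (ht : 0 < t) (ht1 : t ≤ 1) (hst : s < t / 3) :
    expNegInvGlue ((2 + t) / (2 * (1 + t)) * s) < expNegInvGlue s / 2 := by
  have hθ : 0 < (2 + t) / (2 * (1 + t)) := by positivity
  have hθs : 0 < (2 + t) / (2 * (1 + t)) * s := by positivity
  unfold expNegInvGlue
  rw [if_neg (not_le.mpr hθs), if_neg (not_le.mpr hs)]
  have h2 : Real.exp (-s⁻¹) / 2 = Real.exp (-s⁻¹ + -Real.log 2) := by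
    rw [Real.exp_add, Real.exp_neg (Real.log 2), Real.exp_log (by norm_num)]; rfl
  rw [h2, Real.exp_lt_exp]
  have hlog : Real.log 2 < 1 := by
    have := Real.log_two_lt_d9; linarith
  have key : ((2 + t) / (2 * (1 + t)) * s)⁻¹ - s⁻¹ = t / ((2 + t) * s) := by
    field_simp
    ring
  have key2 : 1 < t / ((2 + t) * s) := by
    rw [lt_div_iff₀ (by positivity)]
    nlinarith
  linarith

lemma sol_zero_of_lt {x : EuclideanSpace ℝ (Fin 3)} (hx : x ∈ ParetoSol ![F1, F2] KK)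
    (h : x 2 < x 0 / 3) : x 2 = 0 := by
  rw [mem_sol_iff] at hx
  obtain ⟨⟨h1, h2, h3, h4, h5, h6⟩, hx⟩ := hx
  by_contra hne
  have hs : 0 < x 2 := lt_of_le_of_ne h3 (Ne.symm hne)
  have ht : 0 < x 0 := by linarith
  have hflat := psi_flat hs ht h2 h
  set θ := (2 + x 0) / (2 * (1 + x 0)) with hθ
  have hθ0 : 0 < θ := by positivity
  have hθ1 : θ ≤ 1 := by
    rw [hθ, div_le_one (by positivity)]; linarith
  have hmem : !₂[x 0 / 2, expNegInvGlue (θ * x 2), θ * x 2] ∈ KK := by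
    apply mem_KK_mk
    · positivity
    · linarith
    · positivity
    · nlinarith
    · exact le_rfl
    · exact psi_le_one _
  apply hx _ hmem
  have e0 : (!₂[x 0 / 2, expNegInvGlue (θ * x 2), θ * x 2] : EuclideanSpace ℝ (Fin 3)) 0
    = x 0 / 2 := rfl
  have e1 : (!₂[x 0 / 2, expNegInvGlue (θ * x 2), θ * x 2] : EuclideanSpace ℝ (Fin 3)) 1
    = expNegInvGlue (θ * x 2) := rfl
  have e2 : (!₂[x 0 / 2, expNegInvGlue (θ * x 2), θ * x 2] : EuclideanSpace ℝ (Fin 3)) 2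
    = θ * x 2 := rfl
  rw [e0, e1, e2]
  have hpos : 0 < -x 1 * (x 0 - x 0 / 2) + x 0 * (x 1 - expNegInvGlue (θ * x 2)) := by
    have : -x 1 * (x 0 - x 0 / 2) + x 0 * (x 1 - expNegInvGlue (θ * x 2))
      = x 0 * (x 1 / 2 - expNegInvGlue (θ * x 2)) := by ring
    rw [this]
    apply mul_pos ht
    linarith
  have hz : x 2 * (x 0 - x 0 / 2) + (-1 - x 0) * (x 2 - θ * x 2) = 0 := by
    rw [hθ]
    field_simp
    ring
  exact ⟨hpos.le, hz.ge, Or.inl hpos⟩

lemma sol_pos_of_zero {x : EuclideanSpace ℝ (Fin 3)} (hx : x ∈ ParetoSol ![F1, F2] KK)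
    (h : x 2 = 0) : 0 < x 0 := by
  rw [mem_sol_iff] at hx
  obtain ⟨⟨h1, h2, h3, h4, h5, h6⟩, hx⟩ := hx
  by_contra hne
  have ht : x 0 = 0 := le_antisymm (not_lt.mp hne) h1
  have hmem : !₂[(0 : ℝ), 1, 1 / 2] ∈ KK :=
    mem_KK_mk le_rfl zero_le_one (by norm_num) le_rfl (psi_le_one _) le_rfl
  apply hx _ hmem
  have e0 : (!₂[(0 : ℝ), 1, 1 / 2] : EuclideanSpace ℝ (Fin 3)) 0 = 0 := rfl
  have e1 : (!₂[(0 : ℝ), 1, 1 / 2] : EuclideanSpace ℝ (Fin 3)) 1 = 1 := rfl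
  have e2 : (!₂[(0 : ℝ), 1, 1 / 2] : EuclideanSpace ℝ (Fin 3)) 2 = 1 / 2 := rfl
  rw [e0, e1, e2, h, ht]
  norm_num

lemma sol_mem_one : !₂[(1 : ℝ), 0, 0] ∈ ParetoSol ![F1, F2] KK := by
  rw [mem_sol_iff]
  have hmem : !₂[(1 : ℝ), 0, 0] ∈ KK :=
    mem_KK_mk zero_le_one le_rfl le_rfl (by norm_num) (by simp) zero_le_one
  refine ⟨hmem, fun y hy => ?_⟩
  obtain ⟨h1, h2, h3, h4, h5, h6⟩ := hy
  have e0 : (!₂[(1 : ℝ), 0, 0] : EuclideanSpace ℝ (Fin 3)) 0 = 1 := rfl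
  have e1 : (!₂[(1 : ℝ), 0, 0] : EuclideanSpace ℝ (Fin 3)) 1 = 0 := rfl
  have e2 : (!₂[(1 : ℝ), 0, 0] : EuclideanSpace ℝ (Fin 3)) 2 = 0 := rfl
  rw [e0, e1, e2]
  rintro ⟨g1, g2, g3⟩
  have hy1 : 0 ≤ y 1 := (expNegInvGlue.nonneg _).trans h5
  have hy1' : y 1 = 0 := by linarith
  have hψ : expNegInvGlue (y 2) = 0 := le_antisymm (by linarith) (expNegInvGlue.nonneg _)
  have hy2 : y 2 = 0 := le_antisymm (expNegInvGlue.zero_iff_nonpos.mp hψ) h3
  rw [hy1', hy2] at g3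
  norm_num at g3

lemma sol_mem_two : !₂[(0 : ℝ), 1, 1 / 2] ∈ ParetoSol ![F1, F2] KK := by
  rw [mem_sol_iff]
  have hmem : !₂[(0 : ℝ), 1, 1 / 2] ∈ KK :=
    mem_KK_mk le_rfl zero_le_one (by norm_num) le_rfl (psi_le_one _) le_rfl
  refine ⟨hmem, fun y hy => ?_⟩
  obtain ⟨h1, h2, h3, h4, h5, h6⟩ := hy
  have e0 : (!₂[(0 : ℝ), 1, 1 / 2] : EuclideanSpace ℝ (Fin 3)) 0 = 0 := rfl
  have e1 : (!₂[(0 : ℝ), 1, 1 / 2] : EuclideanSpace ℝ (Fin 3)) 1 = 1 := rfl
  have e2 : (!₂[(0 : ℝ), 1, 1 / 2] : EuclideanSpace ℝ (Fin 3)) 2 = 1 / 2 := rfl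
  rw [e0, e1, e2]
  rintro ⟨g1, g2, g3⟩
  have hy0 : y 0 = 0 := by linarith
  have hy2 : y 2 = 1 / 2 := by linarith
  rw [hy0, hy2] at g3
  norm_num at g3

/-- A monotone vector variational inequality in dimension `3` with two criteria, given by affine
maps on a compact convex set, whose Pareto solution set is bounded and disconnected. -/
theorem result :
    ∃ (K : Set (EuclideanSpace ℝ (Fin 3)))
      (F : Fin 2 → EuclideanSpace ℝ (Fin 3) → EuclideanSpace ℝ (Fin 3)),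
      K.Nonempty ∧ IsCompact K ∧ Convex ℝ K ∧
      (∀ l, Continuous (F l)) ∧
      (∀ l, ∃ (A : EuclideanSpace ℝ (Fin 3) →ₗ[ℝ] EuclideanSpace ℝ (Fin 3))
        (b : EuclideanSpace ℝ (Fin 3)), ∀ x, F l x = A x + b) ∧
      (∀ l x y, 0 ≤ inner ℝ (F l y - F l x) (y - x)) ∧
      (ParetoSol F K).Nonempty ∧ ¬ IsPreconnected (ParetoSol F K) ∧
      Bornology.IsBounded (ParetoSol F K) := by
  refine ⟨KK, ![F1, F2], ?_, KK_compact, KK_convex, ?_, ?_, ?_, ⟨_, sol_mem_one⟩, ?_, ?_⟩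
  · exact ⟨_, sol_mem_one.1⟩
  · intro l
    fin_cases l
    · show Continuous F1
      unfold F1
      fun_prop
    · show Continuous F2
      unfold F2
      fun_prop
  · intro l
    fin_cases l
    · exact ⟨F1lin, 0, fun x => by rw [add_zero]; rfl⟩
    · exact ⟨F2lin, !₂[0, 0, -1], fun x => by
        ext i; fin_cases i
        · simp [F2, F2lin]
        · simp [F2, F2lin]
        · simp [F2, F2lin]; ring⟩
  · intro l x y
    fin_cases l
    · apply le_of_eq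
      show 0 = inner ℝ (F1 y - F1 x) (y - x)
      rw [inner3]
      simp [F1]
      ring
    · apply le_of_eq
      show 0 = inner ℝ (F2 y - F2 x) (y - x)
      rw [inner3]
      simp [F2]
      ring
  · intro hc
    have hU : IsOpen {x : EuclideanSpace ℝ (Fin 3) | x 2 < x 0 / 3} :=
      isOpen_lt (by fun_prop) (by fun_prop)
    have hV : IsOpen {x : EuclideanSpace ℝ (Fin 3) | x 0 / 4 < x 2} :=
      isOpen_lt (by fun_prop) (by fun_prop)
    have hcov : ParetoSol ![F1, F2] KK ⊆ {x : EuclideanSpace ℝ (Fin 3) | x 2 < x 0 / 3} ∪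
        {x : EuclideanSpace ℝ (Fin 3) | x 0 / 4 < x 2} := by
      intro x hx
      by_cases h : x 2 < x 0 / 3
      · exact Or.inl h
      · right
        simp only [Set.mem_ofPred_eq]
        rcases eq_or_lt_of_le hx.1.1 with h0 | h0
        · have h3 : 0 ≤ x 2 := hx.1.2.2.1
          have : x 2 ≠ 0 := fun h2 => by
            have := sol_pos_of_zero hx h2
            linarith
          have : 0 < x 2 := lt_of_le_of_ne h3 (Ne.symm this)
          linarith
        · linarith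
    have hm1 : !₂[(1 : ℝ), 0, 0] ∈ {x : EuclideanSpace ℝ (Fin 3) | x 2 < x 0 / 3} := by
      show (0 : ℝ) < 1 / 3
      norm_num
    have hm2 : !₂[(0 : ℝ), 1, 1 / 2] ∈ {x : EuclideanSpace ℝ (Fin 3) | x 0 / 4 < x 2} := by
      show (0 : ℝ) / 4 < 1 / 2
      norm_num
    obtain ⟨x, hx, hxU, hxV⟩ := hc _ _ hU hV hcov ⟨_, sol_mem_one, hm1⟩ ⟨_, sol_mem_two, hm2⟩
    have h0 := sol_zero_of_lt hx hxU
    have h1 := sol_pos_of_zero hx h0
    simp only [Set.mem_ofPred_eq] at hxV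
    linarith
  · exact KK_bounded.subset fun x hx => hx.1

end Pool.Agent.Results.MP_177738_an.DisconnectedBounded
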